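import Pool.Agent.Q112.ML.Stm

/-!
Project ML (helper112), job LO: the lower bounds.
-/

set_option autoImplicit false

namespace Pool.Agent.Q66.ML

open Finset Filter MeasureTheory ProbabilityTheory Pool.Agent.Q120.GM Pool.Agent.Q112.LE Pool.Agent.Q112.ML
open scoped Topology

theorem one_le_qq {Q : ℕ} (hQ : 1 ≤ Q) : 1 ≤ qq Q := by
  unfold qq
  have h1 : 0 < Nat.totient Q := Nat.totient_pos.2 hQ
  have h2 : (0 : ℝ) < Nat.totient Q := by exact_mod_cast h1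
  rw [le_div_iff₀ h2, one_mul]
  exact_mod_cast Nat.totient_le Q

theorem tlog : Tendsto (fun X : ℕ => Real.log (X : ℝ)) atTop atTop :=
  Real.tendsto_log_atTop.comp tendsto_natCast_atTop_atTop

theorem tpow {s : ℝ} (hs : 0 < s) : Tendsto (fun X : ℕ => (X : ℝ) ^ s) atTop atTop :=
  (tendsto_rpow_atTop hs).comp tendsto_natCast_atTop_atTop

theorem tlogpow {s : ℝ} (hs : 0 < s) : Tendsto (fun X : ℕ => Real.log (X : ℝ) ^ s) atTop atTop :=
  (tendsto_rpow_atTop hs).comp tlog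

/-- the eventual facts -/
theorem ev_facts {Q : ℕ} (hQ : 1 ≤ Q) {e η : ℝ} (he : 0 < e) (he1 : e ≤ 1 / 4) (hη : 0 < η) :
    ∀ᶠ X : ℕ in atTop, 1 ≤ Real.log (X : ℝ) ∧
      Real.log (X : ℝ) ^ (1 + e / 4) ≤ η * √e * Real.log (X : ℝ) * √(Real.log (X : ℝ)) ∧
      Real.log (X : ℝ) ^ (1 + e / 4) ≤ (η / 2) * Real.log (X : ℝ) ^ (1 + e) ∧
      4 * Real.log (X : ℝ) ^ 2 ≤ (X : ℝ) ^ (1 / 4 : ℝ) / Q ∧ 8 ≤ (X : ℝ) ^ e := by
  have hQ0 : (0 : ℝ) < Q := by exact_mod_cast hQ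
  have hse : 0 < √e := Real.sqrt_pos.2 he
  have h1 := tlog.eventually_ge_atTop 1
  have h2 := (tlogpow (show 0 < 1 / 2 - e / 4 by linarith)).eventually_ge_atTop (1 / (η * √e))
  have h3 := (tlogpow (show 0 < 3 * e / 4 by linarith)).eventually_ge_atTop (2 / η)
  have h4 := (tpow (show (0 : ℝ) < 1 / 8 by norm_num)).eventually_ge_atTop (1024 * Q)
  have h5 := (tpow he).eventually_ge_atTop 8
  filter_upwards [h1, h2, h3, h4, h5] with X h1 h2 h3 h4 h5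
  have hL : 0 < Real.log (X : ℝ) := by linarith
  have hX0 : (0 : ℝ) ≤ X := Nat.cast_nonneg X
  have hX1 : (1 : ℝ) < X := by
    by_contra hc
    push Not at hc
    have := Real.log_nonpos hX0 hc
    linarith
  have hX : (0 : ℝ) < X := by linarith
  refine ⟨h1, ?_, ?_, ?_, h5⟩
  · rw [div_le_iff₀ (by positivity)] at h2
    have e1 : Real.log (X : ℝ) ^ (1 + e / 4) * Real.log (X : ℝ) ^ (1 / 2 - e / 4) =
        Real.log (X : ℝ) * √(Real.log (X : ℝ)) := by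
      rw [Real.sqrt_eq_rpow, ← Real.rpow_add hL]
      nth_rewrite 2 [← Real.rpow_one (Real.log (X : ℝ))]
      rw [← Real.rpow_add hL]
      congr 1
      ring
    have e2 : 0 < Real.log (X : ℝ) ^ (1 + e / 4) := Real.rpow_pos_of_pos hL _
    calc Real.log (X : ℝ) ^ (1 + e / 4) = Real.log (X : ℝ) ^ (1 + e / 4) * 1 := by ring
      _ ≤ Real.log (X : ℝ) ^ (1 + e / 4) * (Real.log (X : ℝ) ^ (1 / 2 - e / 4) * (η * √e)) :=
          mul_le_mul_of_nonneg_left h2 e2.le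
      _ = η * √e * (Real.log (X : ℝ) ^ (1 + e / 4) * Real.log (X : ℝ) ^ (1 / 2 - e / 4)) := by ring
      _ = η * √e * Real.log (X : ℝ) * √(Real.log (X : ℝ)) := by rw [e1]; ring
  · rw [div_le_iff₀ hη] at h3
    have e1 : Real.log (X : ℝ) ^ (1 + e / 4) * Real.log (X : ℝ) ^ (3 * e / 4) = Real.log (X : ℝ) ^ (1 + e) := by
      rw [← Real.rpow_add hL]
      congr 1
      ring
    have e2 : 0 < Real.log (X : ℝ) ^ (1 + e / 4) := Real.rpow_pos_of_pos hL _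
    rw [← e1]
    nlinarith [mul_le_mul_of_nonneg_left h3 e2.le]
  · have e1 : Real.log (X : ℝ) ≤ (X : ℝ) ^ (1 / 16 : ℝ) / (1 / 16) := Real.log_le_rpow_div hX0 (by norm_num)
    have e2 : ((X : ℝ) ^ (1 / 16 : ℝ)) ^ 2 = (X : ℝ) ^ (1 / 8 : ℝ) := by
      rw [← Real.rpow_natCast, ← Real.rpow_mul hX0]
      norm_num
    have e3 : ((X : ℝ) ^ (1 / 8 : ℝ)) ^ 2 = (X : ℝ) ^ (1 / 4 : ℝ) := by
      rw [← Real.rpow_natCast, ← Real.rpow_mul hX0]
      norm_num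
    have e4 : Real.log (X : ℝ) ^ 2 ≤ 256 * (X : ℝ) ^ (1 / 8 : ℝ) := by
      have e5 : Real.log (X : ℝ) ≤ 16 * (X : ℝ) ^ (1 / 16 : ℝ) := by
        have : (X : ℝ) ^ (1 / 16 : ℝ) / (1 / 16) = 16 * (X : ℝ) ^ (1 / 16 : ℝ) := by ring
        linarith
      calc Real.log (X : ℝ) ^ 2 ≤ (16 * (X : ℝ) ^ (1 / 16 : ℝ)) ^ 2 := pow_le_pow_left₀ hL.le e5 2
        _ = 256 * (X : ℝ) ^ (1 / 8 : ℝ) := by rw [mul_pow, e2]; norm_num
    rw [le_div_iff₀ hQ0, ← e3]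
    have e6 : 0 < (X : ℝ) ^ (1 / 8 : ℝ) := Real.rpow_pos_of_pos hX _
    calc 4 * Real.log (X : ℝ) ^ 2 * Q ≤ 4 * (256 * (X : ℝ) ^ (1 / 8 : ℝ)) * Q := by
          apply mul_le_mul_of_nonneg_right _ hQ0.le
          linarith
      _ = (X : ℝ) ^ (1 / 8 : ℝ) * (1024 * Q) := by ring
      _ ≤ (X : ℝ) ^ (1 / 8 : ℝ) * (X : ℝ) ^ (1 / 8 : ℝ) := mul_le_mul_of_nonneg_left h4 e6.le
      _ = ((X : ℝ) ^ (1 / 8 : ℝ)) ^ 2 := by ring

/-- the basic inequalities for one modulus `q` -/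
theorem basic {Q : ℕ} (hQ : 1 ≤ Q) {e : ℝ} (he : 0 < e) (he1 : e ≤ 1 / 4) {X : ℝ} {P q : ℝ}
    (hL1 : 1 ≤ Real.log X) (hX : 1 < X) (h8 : 8 ≤ X ^ e) (hP : X ^ (2 * e) ≤ P)
    (hPX : (Q : ℝ) * P * Real.log X ^ (1 + e) ≤ X) (hq1 : Q * P / 8 < q) (hq2 : q ≤ Q * P) :
    0 < q ∧ X ^ e ≤ q ∧ q * Real.log X ^ (1 + e) ≤ X ∧ 0 < X / (Q * P) ∧ X / (Q * P) ≤ qq Q * (X / q) ∧
      Real.log X ^ (1 + e) ≤ qq Q * (X / q) ∧ e * Real.log X ≤ Real.log q ∧
      e * Real.log X ^ 2 ≤ 2 * (1 - e) * Real.log q * Real.log X := by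
  have hQ1 : (1 : ℝ) ≤ Q := by exact_mod_cast hQ
  have hQ0 : (0 : ℝ) < Q := by linarith
  have hX0 : 0 < X := by linarith
  have hL : 0 < Real.log X := by linarith
  have e0 : X ^ (2 * e) = X ^ e * X ^ e := by rw [← Real.rpow_add hX0]; congr 1; ring
  have e1 : 0 < X ^ e := Real.rpow_pos_of_pos hX0 _
  have hP0 : 0 < P := lt_of_lt_of_le (by rw [e0]; positivity) hP
  have hQP : 0 < (Q : ℝ) * P := by positivity
  have hq0 : 0 < q := lt_trans (by positivity) hq1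
  have h1 : X ^ e ≤ q := by
    have h2 : 8 * X ^ e ≤ P := by
      refine le_trans ?_ hP
      rw [e0]
      exact mul_le_mul_of_nonneg_right h8 e1.le
    have h3 : P ≤ Q * P := by nlinarith
    linarith
  have hLp : 0 < Real.log X ^ (1 + e) := Real.rpow_pos_of_pos hL _
  have h2 : q * Real.log X ^ (1 + e) ≤ X := (mul_le_mul_of_nonneg_right hq2 hLp.le).trans hPX
  have hK := one_le_qq hQ
  have h3 : X / (Q * P) ≤ qq Q * (X / q) := by
    have h4 : X / (Q * P) ≤ X / q := div_le_div_of_nonneg_left hX0.le hq0 hq2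
    have h5 : 0 ≤ X / q := by positivity
    nlinarith
  have h4 : Real.log X ^ (1 + e) ≤ X / (Q * P) := by
    rw [le_div_iff₀ hQP]
    linarith
  have h5 : e * Real.log X ≤ Real.log q := by
    rw [← Real.log_rpow hX0]
    exact Real.log_le_log e1 h1
  refine ⟨hq0, h1, h2, by positivity, h3, h4.trans h3, h5, ?_⟩
  have h6 : e * Real.log X ^ 2 ≤ Real.log q * Real.log X := by
    calc e * Real.log X ^ 2 = (e * Real.log X) * Real.log X := by ring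
      _ ≤ Real.log q * Real.log X := mul_le_mul_of_nonneg_right h5 hL.le
  have h7 : 0 ≤ Real.log q * Real.log X := le_trans (by positivity) h6
  nlinarith

/-- sizes -/
theorem size {Q : ℕ} (hQ : 1 ≤ Q) {e η : ℝ} (he : 0 < e) (he1 : e ≤ 1 / 4) (hη : 0 < η) {X P q v y : ℝ}
    (hL1 : 1 ≤ Real.log X) (hX : 1 < X)
    (hF2 : Real.log X ^ (1 + e / 4) ≤ η * √e * Real.log X * √(Real.log X))
    (hF3 : Real.log X ^ (1 + e / 4) ≤ (η / 2) * Real.log X ^ (1 + e))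
    (hF4 : 4 * Real.log X ^ 2 ≤ X ^ (1 / 4 : ℝ) / Q) (h8 : 8 ≤ X ^ e) (hP : X ^ (2 * e) ≤ P)
    (hPX : (Q : ℝ) * P * Real.log X ^ (1 + e) ≤ X) (hq1 : Q * P / 8 < q) (hq2 : q ≤ Q * P)
    (hy : y = qq Q * (X / q)) (hv : 0 < v)
    (hc : 2 * (1 - e) * Real.log q * Real.log X ≤ y * v ^ 2 ∨ 1 / 2 ≤ v) :
    Real.log X ^ (1 + e / 4) ≤ η * v * y ∧
      (P < X ^ (3 / 4 : ℝ) → (η * √e / √Q) * Real.log X * √(X / P) ≤ η * v * y) := by
  obtain ⟨hq0, b1, b2, b3, b4, b5, b6, b7⟩ := basic hQ he he1 hL1 hX h8 hP hPX hq1 hq2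
  rw [← hy] at b4 b5
  have hQ1 : (1 : ℝ) ≤ Q := by exact_mod_cast hQ
  have hQ0 : (0 : ℝ) < Q := by linarith
  have hX0 : 0 < X := by linarith
  have hL : 0 < Real.log X := by linarith
  have hP0 : 0 < P := lt_of_lt_of_le (Real.rpow_pos_of_pos hX0 _) hP
  have hy0 : 0 < y := lt_of_lt_of_le b3 b4
  have hse : 0 < √e := Real.sqrt_pos.2 he
  have hse2 : √e ^ 2 = e := Real.sq_sqrt he.le
  have hse1 : √e ≤ 1 / 2 := by
    rw [Real.sqrt_le_left (by norm_num)]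
    linarith
  have hsy : √y ^ 2 = y := Real.sq_sqrt hy0.le
  have hsy0 : 0 < √y := Real.sqrt_pos.2 hy0
  have hLL : Real.log X ≤ Real.log X ^ (1 + e) := by
    nth_rewrite 1 [← Real.rpow_one (Real.log X)]
    exact Real.rpow_le_rpow_of_exponent_le hL1 (by linarith)
  have hsL : √(Real.log X) ≤ √y := Real.sqrt_le_sqrt (hLL.trans b5)
  -- from (C) to (ii)
  have hCii : √e * Real.log X * √y ≤ v * y → (η * √e / √Q) * Real.log X * √(X / P) ≤ η * v * y := by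
    intro hC
    have h1 : √(X / P) / √Q ≤ √y := by
      rw [← Real.sqrt_div (by positivity)]
      apply Real.sqrt_le_sqrt
      rw [div_div, mul_comm P]
      exact b4
    calc (η * √e / √Q) * Real.log X * √(X / P) = η * √e * Real.log X * (√(X / P) / √Q) := by ring
      _ ≤ η * √e * Real.log X * √y := mul_le_mul_of_nonneg_left h1 (by positivity)
      _ = η * (√e * Real.log X * √y) := by ring
      _ ≤ η * (v * y) := mul_le_mul_of_nonneg_left hC hη.le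
      _ = η * v * y := by ring
  rcases hc with hc | hc
  · have hC : √e * Real.log X * √y ≤ v * y := by
      apply le_of_sq_le_sq _ (by positivity)
      calc (√e * Real.log X * √y) ^ 2 = e * Real.log X ^ 2 * y := by rw [mul_pow, mul_pow, hse2, hsy]
        _ ≤ (y * v ^ 2) * y := mul_le_mul_of_nonneg_right (b7.trans hc) hy0.le
        _ = (v * y) ^ 2 := by ring
    refine ⟨?_, fun _ => hCii hC⟩
    calc Real.log X ^ (1 + e / 4) ≤ η * √e * Real.log X * √(Real.log X) := hF2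
      _ ≤ η * √e * Real.log X * √y := mul_le_mul_of_nonneg_left hsL (by positivity)
      _ = η * (√e * Real.log X * √y) := by ring
      _ ≤ η * (v * y) := mul_le_mul_of_nonneg_left hC hη.le
      _ = η * v * y := by ring
  · constructor
    · calc Real.log X ^ (1 + e / 4) ≤ (η / 2) * Real.log X ^ (1 + e) := hF3
        _ ≤ (η / 2) * y := mul_le_mul_of_nonneg_left b5 (by positivity)
        _ = η * (1 / 2) * y := by ring
        _ ≤ η * v * y := by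
            apply mul_le_mul_of_nonneg_right _ hy0.le
            exact mul_le_mul_of_nonneg_left hc hη.le
    · intro hP4
      apply hCii
      -- y ≥ X^{1/4}/Q
      have h1 : X ^ (1 / 4 : ℝ) / Q ≤ y := by
        refine le_trans ?_ b4
        rw [div_le_div_iff₀ hQ0 (by positivity)]
        have h2 : X ^ (1 / 4 : ℝ) * P ≤ X := by
          have h3 : X ^ (1 / 4 : ℝ) * X ^ (3 / 4 : ℝ) = X := by
            rw [← Real.rpow_add hX0]
            norm_num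
          calc X ^ (1 / 4 : ℝ) * P ≤ X ^ (1 / 4 : ℝ) * X ^ (3 / 4 : ℝ) :=
                mul_le_mul_of_nonneg_left hP4.le (Real.rpow_pos_of_pos hX0 _).le
            _ = X := h3
        calc X ^ (1 / 4 : ℝ) * (Q * P) = Q * (X ^ (1 / 4 : ℝ) * P) := by ring
          _ ≤ Q * X := mul_le_mul_of_nonneg_left h2 hQ0.le
          _ = X * Q := by ring
      have h2 : 4 * Real.log X ^ 2 ≤ √y ^ 2 := by rw [hsy]; exact hF4.trans h1
      have h3 : 2 * Real.log X ≤ √y := by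
        apply le_of_sq_le_sq _ hsy0.le
        calc (2 * Real.log X) ^ 2 = 4 * Real.log X ^ 2 := by ring
          _ ≤ √y ^ 2 := h2
      calc √e * Real.log X * √y ≤ (1 / 2) * √y * √y := by
            apply mul_le_mul_of_nonneg_right _ hsy0.le
            calc √e * Real.log X ≤ (1 / 2) * Real.log X := mul_le_mul_of_nonneg_right hse1 hL.le
              _ ≤ (1 / 2) * √y := by linarith
        _ = (1 / 2) * y := by rw [mul_assoc, ← sq, hsy]
        _ ≤ v * y := mul_le_mul_of_nonneg_right hc hy0.le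


/-- The facts on the indices, for large `X`. -/
theorem idx_ev (hID : S_ID) {Q : ℕ} (hQ : 1 ≤ Q) {e : ℝ} (he : 0 < e) :
    ∀ᶠ X : ℕ in atTop, ∀ k : ℕ, (X : ℝ) ^ (2 * e) ≤ 2 ^ k →
      ∀ i ∈ idx Q k, 1 + Q * i.2 < Q * i.1 ∧ Nat.Coprime (1 + Q * i.2) (Q * i.1) ∧ Q * i.1 ≤ 4 * (1 + Q * i.2) ∧
      (2 : ℝ) ^ k / 8 < i.1 ∧ (i.1 : ℝ) ≤ 2 ^ k := by
  obtain ⟨k0, hk0⟩ := eventually_atTop.1 (hID Q hQ)
  filter_upwards [(tpow (show 0 < 2 * e by positivity)).eventually_gt_atTop ((2 : ℝ) ^ k0)] with X hX k hk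
  have h1 : (2 : ℝ) ^ k0 < 2 ^ k := lt_of_lt_of_le hX hk
  have h2 : k0 ≤ k := by
    have := (pow_lt_pow_iff_right₀ (by norm_num : (1 : ℝ) < 2)).1 h1
    omega
  exact (hk0 k h2).1

theorem rate_zero : rate 0 = 0 := by unfold rate; simp

theorem up_bound (hTC : S_TC) (hSX : S_SX) (hRT : S_RT) (hID : S_ID) {Q : ℕ} (hQ : 1 ≤ Q) {e : ℝ} (he : 0 < e)
    (he1 : e ≤ 1 / 4) (uf : ℝ → ℝ) (huf : ∀ T : ℝ, 0 ≤ T → 0 ≤ uf T ∧ rate (uf T) = T) :
    ∃ c : ℝ, 0 < c ∧ ∀ᶠ X : ℕ in atTop, ∀ k : ℕ,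
      (X : ℝ) ^ (2 * e) ≤ 2 ^ k → (Q : ℝ) * 2 ^ k * Real.log X ^ (1 + e) ≤ X →
      ∀ (Ω : Type) [MeasurableSpace Ω] (μ : Measure Ω) [IsProbabilityMeasure μ] (A : Ω → Set ℕ),
        IsModel μ (level Q) A →
        μ.real {ω | ∀ i ∈ idx Q k, 1 * psi (A ω) X (Q * i.1) (1 + Q * i.2) <
          (1 + uf (2 * (1 - e) * Real.log ((Q * i.1 : ℕ) : ℝ) * Real.log X / (qq Q * ((X : ℝ) / ((Q * i.1 : ℕ) : ℝ))))) *
            (qq Q * ((X : ℝ) / ((Q * i.1 : ℕ) : ℝ)))} ≤ (X : ℝ) ^ (-c) := by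
  obtain ⟨η, hη, hη1, hT⟩ := hTC Q hQ e he (by linarith)
  have hQ0 : (0 : ℝ) < Q := by exact_mod_cast hQ
  have hQ1 : (1 : ℝ) ≤ Q := by exact_mod_cast hQ
  have hse : 0 < √e := Real.sqrt_pos.2 he
  obtain ⟨c, hc, hS⟩ := hSX Q hQ e (η * √e / √Q) he (by linarith) (by positivity)
  refine ⟨c, hc, ?_⟩
  filter_upwards [hT, hS, ev_facts hQ he he1 hη, idx_ev hID hQ he] with X hT hS hF hI k hk1 hk2
  intro Ω _ μ _ A hA
  obtain ⟨hL1, hF2, hF3, hF4, h8⟩ := hF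
  have hX1 : (1 : ℝ) < X := by
    by_contra hc'
    push Not at hc'
    have := Real.log_nonpos (Nat.cast_nonneg X) hc'
    linarith
  have hL : 0 < Real.log (X : ℝ) := by linarith
  have hu : ∀ i ∈ idx Q k, ∀ q y u : ℝ, q = ((Q * i.1 : ℕ) : ℝ) → y = qq Q * ((X : ℝ) / q) →
      u = uf (2 * (1 - e) * Real.log q * Real.log X / y) →
      0 < y ∧ 0 < u ∧ y * rate u = 2 * (1 - e) * Real.log q * Real.log X ∧ (Q : ℝ) * 2 ^ k / 8 < q ∧ q ≤ Q * 2 ^ k ∧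
      2 * (1 - e) * Real.log q * Real.log X ≤ y * u ^ 2 ∧ (X : ℝ) ^ e ≤ q ∧ q * Real.log X ^ (1 + e) ≤ X := by
    intro i hi q y u hq hy hu
    obtain ⟨i1, i2, i3, i4, i5⟩ := hI k hk1 i hi
    have q1 : (Q : ℝ) * 2 ^ k / 8 < q := by
      rw [hq]; push_cast
      nlinarith
    have q2 : q ≤ Q * 2 ^ k := by
      rw [hq]; push_cast
      exact mul_le_mul_of_nonneg_left i5 hQ0.le
    obtain ⟨hq0, b1, b2, b3, b4, b5, b6, b7⟩ := basic hQ he he1 hL1 hX1 h8 hk1 hk2 q1 q2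
    rw [← hy] at b4 b5
    have hy0 : 0 < y := lt_of_lt_of_le b3 b4
    have hR0 : 0 < 2 * (1 - e) * Real.log q * Real.log X := lt_of_lt_of_le (by positivity) b7
    obtain ⟨hu0, hu1⟩ := huf (2 * (1 - e) * Real.log q * Real.log X / y) (by positivity)
    rw [← hu] at hu0 hu1
    have hyr : y * rate u = 2 * (1 - e) * Real.log q * Real.log X := by
      rw [hu1]
      field_simp
    have hupos : 0 < u := by
      rcases hu0.lt_or_eq with h | h
      · exact h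
      · rw [← h, rate_zero, mul_zero] at hyr
        linarith
    refine ⟨hy0, hupos, hyr, q1, q2, ?_, b1, b2⟩
    rw [← hyr]
    apply mul_le_mul_of_nonneg_left _ hy0.le
    have := hRT.1 u hu0
    nlinarith [sq_nonneg u]
  refine hS k hk1 hk2 Ω μ A hA 1 (fun i => (1 + uf (2 * (1 - e) * Real.log ((Q * i.1 : ℕ) : ℝ) * Real.log X /
      (qq Q * ((X : ℝ) / ((Q * i.1 : ℕ) : ℝ))))) * (qq Q * ((X : ℝ) / ((Q * i.1 : ℕ) : ℝ))))
    (fun i => η * uf (2 * (1 - e) * Real.log ((Q * i.1 : ℕ) : ℝ) * Real.log X /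
      (qq Q * ((X : ℝ) / ((Q * i.1 : ℕ) : ℝ)))) * (qq Q * ((X : ℝ) / ((Q * i.1 : ℕ) : ℝ)))) (Or.inl rfl) ?_ ?_ ?_
  · intro i hi
    obtain ⟨h1, h2, h3, h4, h5, h6, h7, h9⟩ := hu i hi _ _ _ rfl rfl rfl
    exact (size hQ he he1 hη hL1 hX1 hF2 hF3 hF4 h8 hk1 hk2 h4 h5 rfl h2 (Or.inl h6)).1
  · intro hk3 i hi
    obtain ⟨h1, h2, h3, h4, h5, h6, h7, h9⟩ := hu i hi _ _ _ rfl rfl rfl
    exact (size hQ he he1 hη hL1 hX1 hF2 hF3 hF4 h8 hk1 hk2 h4 h5 rfl h2 (Or.inl h6)).2 hk3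
  · intro i hi
    obtain ⟨h1, h2, h3, h4, h5, h6, h7, h9⟩ := hu i hi _ _ _ rfl rfl rfl
    obtain ⟨i1, i2, i3, i4, i5⟩ := hI k hk1 i hi
    have hcop : Nat.Coprime (1 + Q * i.2) Q := i2.coprime_mul_right_right
    have h10 := (hT (Q * i.1) (1 + Q * i.2) (Nat.dvd_mul_right Q i.1) hcop i3 i1 h7 h9 Ω μ A hA).1 _ h2 h3
    have hq0 : (0 : ℝ) < ((Q * i.1 : ℕ) : ℝ) := lt_of_lt_of_le (Real.rpow_pos_of_pos (by linarith) _) h7
    refine le_trans ?_ (h10.trans (le_of_eq ?_))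
    · exact Real.rpow_le_rpow_of_nonpos hq0 h5 (by linarith)
    · congr 1
      ext ω
      simp only [Set.mem_ofPred_eq, one_mul]
      rw [show ∀ a b : ℝ, (1 + a) * b + η * a * b = (1 + (1 + η) * a) * b from fun a b => by ring]

theorem down_bound (hTC : S_TC) (hSX : S_SX) (hRT : S_RT) (hID : S_ID) {Q : ℕ} (hQ : 1 ≤ Q) {e : ℝ} (he : 0 < e)
    (he1 : e ≤ 1 / 4) (vd : ℝ → ℝ → ℝ) (hvd : ∀ R y : ℝ, 0 < R → 0 < y → 0 < vd R y ∧ vd R y ≤ 1 - e ∧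
      y * rate (-(vd R y)) ≤ R ∧ (vd R y = 1 - e ∨ y * rate (-(vd R y)) = R)) :
    ∃ c : ℝ, 0 < c ∧ ∀ᶠ X : ℕ in atTop, ∀ k : ℕ,
      (X : ℝ) ^ (2 * e) ≤ 2 ^ k → (Q : ℝ) * 2 ^ k * Real.log X ^ (1 + e) ≤ X →
      ∀ (Ω : Type) [MeasurableSpace Ω] (μ : Measure Ω) [IsProbabilityMeasure μ] (A : Ω → Set ℕ),
        IsModel μ (level Q) A →
        μ.real {ω | ∀ i ∈ idx Q k, (-1) * psi (A ω) X (Q * i.1) (1 + Q * i.2) <
          -((1 - vd (2 * (1 - e) * Real.log ((Q * i.1 : ℕ) : ℝ) * Real.log X) (qq Q * ((X : ℝ) / ((Q * i.1 : ℕ) : ℝ)))) *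
            (qq Q * ((X : ℝ) / ((Q * i.1 : ℕ) : ℝ))))} ≤ (X : ℝ) ^ (-c) := by
  obtain ⟨η, hη, hη1, hT⟩ := hTC Q hQ e he (by linarith)
  have hQ0 : (0 : ℝ) < Q := by exact_mod_cast hQ
  have hQ1 : (1 : ℝ) ≤ Q := by exact_mod_cast hQ
  have hse : 0 < √e := Real.sqrt_pos.2 he
  obtain ⟨c, hc, hS⟩ := hSX Q hQ e (η * √e / √Q) he (by linarith) (by positivity)
  refine ⟨c, hc, ?_⟩
  filter_upwards [hT, hS, ev_facts hQ he he1 hη, idx_ev hID hQ he] with X hT hS hF hI k hk1 hk2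
  intro Ω _ μ _ A hA
  obtain ⟨hL1, hF2, hF3, hF4, h8⟩ := hF
  have hX1 : (1 : ℝ) < X := by
    by_contra hc'
    push Not at hc'
    have := Real.log_nonpos (Nat.cast_nonneg X) hc'
    linarith
  have hL : 0 < Real.log (X : ℝ) := by linarith
  have hu : ∀ i ∈ idx Q k, ∀ q y v : ℝ, q = ((Q * i.1 : ℕ) : ℝ) → y = qq Q * ((X : ℝ) / q) →
      v = vd (2 * (1 - e) * Real.log q * Real.log X) y →
      0 < y ∧ 0 < v ∧ v ≤ 1 - e ∧ y * rate (-v) ≤ 2 * (1 - e) * Real.log q * Real.log X ∧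
      (v = 1 - e ∨ y * rate (-v) = 2 * (1 - e) * Real.log q * Real.log X) ∧
      (Q : ℝ) * 2 ^ k / 8 < q ∧ q ≤ Q * 2 ^ k ∧
      (2 * (1 - e) * Real.log q * Real.log X ≤ y * v ^ 2 ∨ 1 / 2 ≤ v) ∧
      (X : ℝ) ^ e ≤ q ∧ q * Real.log X ^ (1 + e) ≤ X := by
    intro i hi q y v hq hy hv
    obtain ⟨i1, i2, i3, i4, i5⟩ := hI k hk1 i hi
    have q1 : (Q : ℝ) * 2 ^ k / 8 < q := by
      rw [hq]; push_cast
      nlinarith
    have q2 : q ≤ Q * 2 ^ k := by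
      rw [hq]; push_cast
      exact mul_le_mul_of_nonneg_left i5 hQ0.le
    obtain ⟨hq0, b1, b2, b3, b4, b5, b6, b7⟩ := basic hQ he he1 hL1 hX1 h8 hk1 hk2 q1 q2
    rw [← hy] at b4 b5
    have hy0 : 0 < y := lt_of_lt_of_le b3 b4
    have hR0 : 0 < 2 * (1 - e) * Real.log q * Real.log X := lt_of_lt_of_le (by positivity) b7
    obtain ⟨v0, v1, v2, v3⟩ := hvd _ y hR0 hy0
    rw [← hv] at v0 v1 v2 v3
    refine ⟨hy0, v0, v1, v2, v3, q1, q2, ?_, b1, b2⟩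
    rcases v3 with h | h
    · right
      rw [h]
      linarith
    · left
      rw [← h]
      exact mul_le_mul_of_nonneg_left (hRT.2.2.2.2.1 v v0.le (by linarith)).2 hy0.le
  refine hS k hk1 hk2 Ω μ A hA (-1) (fun i => -((1 - vd (2 * (1 - e) * Real.log ((Q * i.1 : ℕ) : ℝ) * Real.log X)
      (qq Q * ((X : ℝ) / ((Q * i.1 : ℕ) : ℝ)))) * (qq Q * ((X : ℝ) / ((Q * i.1 : ℕ) : ℝ)))))
    (fun i => η * vd (2 * (1 - e) * Real.log ((Q * i.1 : ℕ) : ℝ) * Real.log X)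
      (qq Q * ((X : ℝ) / ((Q * i.1 : ℕ) : ℝ))) * (qq Q * ((X : ℝ) / ((Q * i.1 : ℕ) : ℝ)))) (Or.inr rfl) ?_ ?_ ?_
  · intro i hi
    obtain ⟨h1, h2, h3, h3', h3'', h4, h5, h6, h7, h9⟩ := hu i hi _ _ _ rfl rfl rfl
    exact (size hQ he he1 hη hL1 hX1 hF2 hF3 hF4 h8 hk1 hk2 h4 h5 rfl h2 h6).1
  · intro hk3 i hi
    obtain ⟨h1, h2, h3, h3', h3'', h4, h5, h6, h7, h9⟩ := hu i hi _ _ _ rfl rfl rfl
    exact (size hQ he he1 hη hL1 hX1 hF2 hF3 hF4 h8 hk1 hk2 h4 h5 rfl h2 h6).2 hk3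
  · intro i hi
    obtain ⟨h1, h2, h3, h3', h3'', h4, h5, h6, h7, h9⟩ := hu i hi _ _ _ rfl rfl rfl
    obtain ⟨i1, i2, i3, i4, i5⟩ := hI k hk1 i hi
    have hcop : Nat.Coprime (1 + Q * i.2) Q := i2.coprime_mul_right_right
    have h10 := (hT (Q * i.1) (1 + Q * i.2) (Nat.dvd_mul_right Q i.1) hcop i3 i1 h7 h9 Ω μ A hA).2 _ h2 h3 h3' h3''
    have hq0 : (0 : ℝ) < ((Q * i.1 : ℕ) : ℝ) := lt_of_lt_of_le (Real.rpow_pos_of_pos (by linarith) _) h7
    refine le_trans ?_ (h10.trans (le_of_eq ?_))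
    · exact Real.rpow_le_rpow_of_nonpos hq0 h5 (by linarith)
    · congr 1
      ext ω
      simp only [Set.mem_ofPred_eq]
      constructor
      · intro h
        linarith
      · intro h
        linarith


theorem bc_bound {Ω : Type} [MeasurableSpace Ω] {μ : Measure Ω} [IsProbabilityMeasure μ] {c : ℝ} (hc : 0 < c)
    (E : ℕ → ℕ → Set Ω) (V : ℕ → ℕ → Prop) (hV : ∀ j k : ℕ, 2 ≤ j → V (2 ^ j) k → k ≤ j)
    (h : ∀ᶠ X : ℕ in atTop, ∀ k : ℕ, V X k → μ.real (E X k) ≤ (X : ℝ) ^ (-c)) :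
    ∀ᵐ ω ∂μ, ∀ᶠ j : ℕ in atTop, ∀ k : ℕ, V (2 ^ j) k → ω ∉ E (2 ^ j) k := by
  classical
  have hg : Summable (fun j : ℕ => ((j : ℝ) + 1) * ((2 : ℝ) ^ (-c)) ^ j) := by
    have hr : ‖(2 : ℝ) ^ (-c)‖ < 1 := by
      rw [Real.norm_of_nonneg (by positivity)]
      exact Real.rpow_lt_one_of_one_lt_of_neg (by norm_num) (by linarith)
    have h1 := summable_pow_mul_geometric_of_norm_lt_one 1 hr
    have h2 := summable_pow_mul_geometric_of_norm_lt_one 0 hr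
    refine (h1.add h2).congr (fun j => ?_)
    ring
  have hb : ∀ᶠ j : ℕ in atTop, μ.real (⋃ k ∈ (range (j + 1)).filter (fun k => V (2 ^ j) k), E (2 ^ j) k) ≤
      ((j : ℝ) + 1) * ((2 : ℝ) ^ (-c)) ^ j := by
    filter_upwards [two_pow_tendsto.eventually h] with j hj
    have e1 : (((2 ^ j : ℕ)) : ℝ) ^ (-c) = ((2 : ℝ) ^ (-c)) ^ j := by
      push_cast
      rw [← Real.rpow_natCast, ← Real.rpow_mul (by norm_num), mul_comm, Real.rpow_mul (by norm_num), Real.rpow_natCast]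
    calc μ.real (⋃ k ∈ (range (j + 1)).filter (fun k => V (2 ^ j) k), E (2 ^ j) k)
        ≤ ∑ k ∈ (range (j + 1)).filter (fun k => V (2 ^ j) k), μ.real (E (2 ^ j) k) :=
          measureReal_biUnion_finset_le _ _
      _ ≤ ∑ k ∈ (range (j + 1)).filter (fun k => V (2 ^ j) k), ((2 : ℝ) ^ (-c)) ^ j := by
          refine sum_le_sum (fun k hk => ?_)
          rw [← e1]
          exact hj k (mem_filter.1 hk).2
      _ ≤ ∑ k ∈ range (j + 1), ((2 : ℝ) ^ (-c)) ^ j :=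
          sum_le_sum_of_subset_of_nonneg (filter_subset _ _) (fun _ _ _ => by positivity)
      _ = ((j : ℝ) + 1) * ((2 : ℝ) ^ (-c)) ^ j := by
          rw [sum_const, card_range, nsmul_eq_mul]
          push_cast
          ring
  filter_upwards [bc hg hb] with ω hω
  filter_upwards [hω, eventually_ge_atTop 2] with j hj hj2 k hk hmem
  apply hj
  refine Set.mem_biUnion (mem_filter.2 ⟨mem_range.2 ?_, hk⟩) hmem
  have := hV j k hj2 hk
  omega

theorem lo : S_TC → S_SX → S_RT → S_ID → S_LO := by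
  intro hTC hSX hRT hID Ω _ μ _ A Q hQ hA ε hε hε1
  have hQ0 : (0 : ℝ) < Q := by exact_mod_cast hQ
  have hQ1 : (1 : ℝ) ≤ Q := by exact_mod_cast hQ
  obtain ⟨R1, R2, R3, R4, R5, R6, R7, R8, R9⟩ := hRT
  have hRT : S_RT := ⟨R1, R2, R3, R4, R5, R6, R7, R8, R9⟩
  -- the functions
  have huf : ∃ uf : ℝ → ℝ, ∀ T : ℝ, 0 ≤ T → 0 ≤ uf T ∧ rate (uf T) = T := by
    refine ⟨fun T => if h : 0 ≤ T then (R7 T h).choose else 0, fun T hT => ?_⟩
    simp only [hT, dif_pos]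
    exact (R7 T hT).choose_spec
  obtain ⟨uf, huf⟩ := huf
  set e : ℝ := ε / 4 with he_def
  have he : 0 < e := by positivity
  have he1 : e ≤ 1 / 4 := by rw [he_def]; linarith
  have hvd : ∃ vd : ℝ → ℝ → ℝ, ∀ R y : ℝ, 0 < R → 0 < y → 0 < vd R y ∧ vd R y ≤ 1 - e ∧
      y * rate (-(vd R y)) ≤ R ∧ (vd R y = 1 - e ∨ y * rate (-(vd R y)) = R) := by
    have key : ∀ R y : ℝ, 0 < R → 0 < y → ∃ v : ℝ, 0 < v ∧ v ≤ 1 - e ∧
        y * rate (-v) ≤ R ∧ (v = 1 - e ∨ y * rate (-v) = R) := by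
      intro R y hR hy
      by_cases hc : y * rate (-(1 - e)) ≤ R
      · exact ⟨1 - e, by linarith, le_refl _, hc, Or.inl rfl⟩
      · push Not at hc
        have h1 := (R5 (1 - e) (by linarith) (by linarith)).2
        have h2 : R / y < rate (-(1 - e)) := by
          rw [div_lt_iff₀ hy]
          linarith
        obtain ⟨v, hv0, hv1, hv⟩ := R8 (R / y) (by positivity) (by nlinarith)
        have h3 : y * rate (-v) = R := by
          rw [hv]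
          field_simp
        refine ⟨v, ?_, ?_, h3.le, Or.inr h3⟩
        · rcases hv0.lt_or_eq with h | h
          · exact h
          · rw [← h, neg_zero, rate_zero, mul_zero] at h3
            linarith
        · by_contra hcv
          push Not at hcv
          have h4 := R3 (1 - e) v (by linarith) hcv hv1
          rw [hv] at h4
          linarith
    refine ⟨fun R y => if h : 0 < R ∧ 0 < y then (key R y h.1 h.2).choose else 0, fun R y hR hy => ?_⟩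
    have h : 0 < R ∧ 0 < y := ⟨hR, hy⟩
    simp only [h, and_self, dif_pos]
    exact (key R y hR hy).choose_spec
  obtain ⟨vd, hvd⟩ := hvd
  obtain ⟨c1, hc1, hU⟩ := up_bound hTC hSX hRT hID hQ he he1 uf huf
  obtain ⟨c2, hc2, hD⟩ := down_bound hTC hSX hRT hID hQ he he1 vd hvd
  have hV : ∀ j k : ℕ, 2 ≤ j → ((((2 ^ j : ℕ) : ℝ) ^ (2 * e) ≤ 2 ^ k) ∧
      (Q : ℝ) * 2 ^ k * Real.log ((2 ^ j : ℕ) : ℝ) ^ (1 + e) ≤ ((2 ^ j : ℕ) : ℝ)) → k ≤ j := by
    intro j k hj h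
    have h1 : (1 : ℝ) ≤ Real.log ((2 ^ j : ℕ) : ℝ) := by
      push_cast
      rw [Real.log_pow]
      have h2 := Real.log_two_gt_d9
      have h3 : (2 : ℝ) ≤ j := by exact_mod_cast hj
      nlinarith
    have h2 : (1 : ℝ) ≤ Real.log ((2 ^ j : ℕ) : ℝ) ^ (1 + e) := Real.one_le_rpow h1 (by linarith)
    have h3 : (2 : ℝ) ^ k ≤ 2 ^ j := by
      have h4 := h.2
      push_cast at h4 h2
      calc (2 : ℝ) ^ k = 1 * 2 ^ k * 1 := by ring
        _ ≤ (Q : ℝ) * 2 ^ k * Real.log ((2 : ℝ) ^ j) ^ (1 + e) := by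
            apply mul_le_mul _ h2 (by norm_num) (by positivity)
            exact mul_le_mul_of_nonneg_right hQ1 (by positivity)
        _ ≤ 2 ^ j := h4
    exact (pow_le_pow_iff_right₀ (by norm_num : (1 : ℝ) < 2)).1 h3
  have hbU := bc_bound (μ := μ) hc1 (fun X k => {ω | ∀ i ∈ idx Q k, 1 * psi (A ω) X (Q * i.1) (1 + Q * i.2) <
          (1 + uf (2 * (1 - e) * Real.log ((Q * i.1 : ℕ) : ℝ) * Real.log X / (qq Q * ((X : ℝ) / ((Q * i.1 : ℕ) : ℝ))))) *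
            (qq Q * ((X : ℝ) / ((Q * i.1 : ℕ) : ℝ)))})
    (fun X k => (X : ℝ) ^ (2 * e) ≤ 2 ^ k ∧ (Q : ℝ) * 2 ^ k * Real.log X ^ (1 + e) ≤ X) hV
    (by filter_upwards [hU] with X hX k hk using hX k hk.1 hk.2 Ω μ A hA)
  have hbD := bc_bound (μ := μ) hc2 (fun X k => {ω | ∀ i ∈ idx Q k, (-1) * psi (A ω) X (Q * i.1) (1 + Q * i.2) <
          -((1 - vd (2 * (1 - e) * Real.log ((Q * i.1 : ℕ) : ℝ) * Real.log X) (qq Q * ((X : ℝ) / ((Q * i.1 : ℕ) : ℝ)))) *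
            (qq Q * ((X : ℝ) / ((Q * i.1 : ℕ) : ℝ))))})
    (fun X k => (X : ℝ) ^ (2 * e) ≤ 2 ^ k ∧ (Q : ℝ) * 2 ^ k * Real.log X ^ (1 + e) ≤ X) hV
    (by filter_upwards [hD] with X hX k hk using hX k hk.1 hk.2 Ω μ A hA)
  -- large X
  have hlarge : ∀ᶠ X : ℕ in atTop, 1 ≤ Real.log (X : ℝ) ∧ 8 ≤ (X : ℝ) ^ e ∧ (Q : ℝ) ≤ (X : ℝ) ^ ε ∧
      2 * (Q : ℝ) ≤ (X : ℝ) ^ (2 * e) := by
    filter_upwards [tlog.eventually_ge_atTop 1, (tpow he).eventually_ge_atTop 8, (tpow hε).eventually_ge_atTop (Q : ℝ),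
      (tpow (show 0 < 2 * e by positivity)).eventually_ge_atTop (2 * (Q : ℝ))] with X h1 h2 h3 h4
    exact ⟨h1, h2, h3, h4⟩
  filter_upwards [hbU, hbD] with ω hωU hωD
  filter_upwards [hωU, hωD, two_pow_tendsto.eventually hlarge, two_pow_tendsto.eventually (idx_ev hID hQ he)] with j
    hjU hjD hl hI Y hY1 hY2
  obtain ⟨hL1, h8, hQX, hQX2⟩ := hl
  set X : ℕ := 2 ^ j with hX_def
  have hXc : (X : ℝ) = 2 ^ j := by rw [hX_def]; push_cast; ring
  rw [← hXc] at hY1 hY2 ⊢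
  have hX1 : (1 : ℝ) < X := by
    by_contra hc'
    push Not at hc'
    have := Real.log_nonpos (Nat.cast_nonneg X) hc'
    linarith
  have hX0 : (0 : ℝ) < X := by linarith
  have hL : 0 < Real.log (X : ℝ) := by linarith
  -- choose k
  have hYQ : (Q : ℝ) ≤ Y := hQX.trans hY1
  obtain ⟨k, hk1, hk2⟩ : ∃ k : ℕ, (2 : ℝ) ^ k ≤ Y / Q ∧ Y / Q < 2 ^ (k + 1) := by
    apply exists_nat_pow_near
    · rw [le_div_iff₀ hQ0]
      linarith
    · norm_num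
  have hk1' : (Q : ℝ) * 2 ^ k ≤ Y := by
    rw [le_div_iff₀ hQ0] at hk1
    linarith
  have hk2' : Y < 2 * (Q : ℝ) * 2 ^ k := by
    rw [div_lt_iff₀ hQ0, pow_succ] at hk2
    linarith
  have hLe : Real.log (X : ℝ) ^ (1 + e) ≤ Real.log (X : ℝ) ^ (1 + ε) :=
    Real.rpow_le_rpow_of_exponent_le hL1 (by rw [he_def]; linarith)
  have hv1 : (X : ℝ) ^ (2 * e) ≤ 2 ^ k := by
    have h1 : (X : ℝ) ^ ε = (X : ℝ) ^ (2 * e) * (X : ℝ) ^ (2 * e) := by
      rw [← Real.rpow_add hX0]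
      congr 1
      rw [he_def]
      ring
    have h2 : 0 < (X : ℝ) ^ (2 * e) := Real.rpow_pos_of_pos hX0 _
    have h3 : (X : ℝ) ^ (2 * e) * (2 * Q) ≤ (X : ℝ) ^ (2 * e) * (X : ℝ) ^ (2 * e) :=
      mul_le_mul_of_nonneg_left hQX2 h2.le
    have h4 : (X : ℝ) ^ (2 * e) * (2 * Q) ≤ 2 ^ k * (2 * Q) := by
      linarith
    exact le_of_mul_le_mul_right h4 (by positivity)
  have hv2 : (Q : ℝ) * 2 ^ k * Real.log (X : ℝ) ^ (1 + e) ≤ X := by
    calc (Q : ℝ) * 2 ^ k * Real.log (X : ℝ) ^ (1 + e) ≤ Y * Real.log (X : ℝ) ^ (1 + ε) := by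
          apply mul_le_mul hk1' hLe (by positivity)
          linarith
      _ ≤ X := hY2
  have hI' := hI k hv1
  have hgen : ∀ i ∈ idx Q k, (Q : ℝ) * 2 ^ k / 8 < ((Q * i.1 : ℕ) : ℝ) ∧ ((Q * i.1 : ℕ) : ℝ) ≤ Q * 2 ^ k := by
    intro i hi
    obtain ⟨i1, i2, i3, i4, i5⟩ := hI' i hi
    constructor
    · push_cast
      nlinarith
    · push_cast
      exact mul_le_mul_of_nonneg_left i5 hQ0.le
  constructor
  · have h1 := hjU k ⟨hv1, hv2⟩
    simp only [not_forall, not_lt, one_mul] at h1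
    obtain ⟨i, hi, h1⟩ := h1
    obtain ⟨i1, i2, i3, i4, i5⟩ := hI' i hi
    obtain ⟨q1, q2⟩ := hgen i hi
    obtain ⟨hq0, b1, b2, b3, b4, b5, b6, b7⟩ := basic hQ he he1 hL1 hX1 h8 hv1 hv2 q1 q2
    refine ⟨Q * i.1, 1 + Q * i.2, by linarith, by linarith, Nat.dvd_mul_right Q i.1, i1, i2, ?_⟩
    intro u hu hur
    set q : ℝ := ((Q * i.1 : ℕ) : ℝ) with hq_def
    have hy0 : 0 < qq Q * ((X : ℝ) / q) := lt_of_lt_of_le b3 b4
    have hR0 : 0 < 2 * (1 - e) * Real.log q * Real.log X := lt_of_lt_of_le (by positivity) b7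
    obtain ⟨hu0, hu1⟩ := huf (2 * (1 - e) * Real.log q * Real.log X / (qq Q * ((X : ℝ) / q))) (by positivity)
    refine le_trans ?_ h1
    apply mul_le_mul_of_nonneg_right _ hy0.le
    have huu : u ≤ uf (2 * (1 - e) * Real.log q * Real.log X / (qq Q * ((X : ℝ) / q))) := by
      by_contra hcu
      push Not at hcu
      have h2 := R2 _ _ hu0 hcu
      rw [hu1, div_lt_iff₀ hy0] at h2
      have h3 : (1 - ε) * (2 * Real.log q) * Real.log X ≤ 2 * (1 - e) * Real.log q * Real.log X := by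
        have h4 : 0 < Real.log q := lt_of_lt_of_le (by positivity) b6
        have h5 : 0 < Real.log q * Real.log X := by positivity
        have h6 : (1 - ε) ≤ 1 - e := by rw [he_def]; linarith
        nlinarith
      linarith
    linarith
  · have h1 := hjD k ⟨hv1, hv2⟩
    simp only [not_forall, not_lt] at h1
    obtain ⟨i, hi, h1⟩ := h1
    obtain ⟨i1, i2, i3, i4, i5⟩ := hI' i hi
    obtain ⟨q1, q2⟩ := hgen i hi
    obtain ⟨hq0, b1, b2, b3, b4, b5, b6, b7⟩ := basic hQ he he1 hL1 hX1 h8 hv1 hv2 q1 q2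
    refine ⟨Q * i.1, 1 + Q * i.2, by linarith, by linarith, Nat.dvd_mul_right Q i.1, i1, i2, ?_⟩
    intro v hv hv1' hvr
    set q : ℝ := ((Q * i.1 : ℕ) : ℝ) with hq_def
    have hy0 : 0 < qq Q * ((X : ℝ) / q) := lt_of_lt_of_le b3 b4
    have hR0 : 0 < 2 * (1 - e) * Real.log q * Real.log X := lt_of_lt_of_le (by positivity) b7
    obtain ⟨v0, v1, v2, v3⟩ := hvd _ _ hR0 hy0
    have hvv : v ≤ vd (2 * (1 - e) * Real.log q * Real.log X) (qq Q * ((X : ℝ) / q)) := by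
      rcases v3 with h | h
      · rw [h, he_def]
        linarith
      · by_contra hcv
        push Not at hcv
        have h2 := R3 _ _ v0.le hcv (by linarith)
        have h2' := mul_lt_mul_of_pos_left h2 hy0
        rw [h] at h2'
        have h3 : (1 - ε) * (2 * Real.log q) * Real.log X ≤ 2 * (1 - e) * Real.log q * Real.log X := by
          have h4 : 0 < Real.log q := lt_of_lt_of_le (by positivity) b6
          have h5 : 0 < Real.log q * Real.log X := by positivity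
          have h6 : (1 - ε) ≤ 1 - e := by rw [he_def]; linarith
          nlinarith
        linarith
    have h2 : psi (A ω) X (Q * i.1) (1 + Q * i.2) ≤
        (1 - vd (2 * (1 - e) * Real.log q * Real.log X) (qq Q * ((X : ℝ) / q))) * (qq Q * ((X : ℝ) / q)) := by
      linarith
    refine h2.trans ?_
    apply mul_le_mul_of_nonneg_right _ hy0.le
    linarith

end Pool.Agent.Q66.ML
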